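import Pool.Agent.H42.Hb.LDefs

/-!
# Definitions: the layer of a Heilbronn class function
-/

open Module NumberField

open Pool.Agent.H7.Artin Pool.Agent.H24.HL Pool.Agent.H42.Hb Pool.Agent.H21.Cl

open scoped Nat commutatorElement

namespace Pool.Agent.H21.Un

/-- The group `S` is an alternating group of degree `n ≥ 20` with `n ≥ r + 2` (`n ≥ r + 3` if `n` is
prime), or `PSL_n(F)` over a finite field `F` with `n ≥ 5` and `r < n` or (`char F ≤ n` and
`r + 1 < |F|^(n-1)`), or a symplectic, unitary or orthogonal group of dimension at least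
`(2 * r + 10) * (2 * ((r + 20) * (4 * r + 16)) + 18)` over a finite field (`LargeClassical r S`),
or a group on whose perfect central extensions all Heilbronn class functions of degree at most `r`
are constant. -/
def RigidSimple (r : ℕ) (S : Type) [Group S] : Prop :=
  (∃ n : ℕ, 20 ≤ n ∧ r + 2 ≤ n ∧ (n.Prime → r + 3 ≤ n) ∧
    Nonempty (S ≃* alternatingGroup (Fin n))) ∨
  (∃ (n : ℕ) (F : Type) (_ : Field F) (_ : Finite F), 5 ≤ n ∧
    (r < n ∨ (ringChar F ≤ n ∧ r + 1 < Nat.card F ^ (n - 1))) ∧
    Nonempty (S ≃* Matrix.ProjectiveSpecialLinearGroup (Fin n) F)) ∨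
  LargeClassical r S ∨ ConstOnCovers r S

section

variable {G : Type} [Group G]

/-- The subgroup `M` of `E` is the kernel of a homomorphism of `E` onto a quasisimple group whose
simple quotient does not satisfy `RigidSimple r`. -/
def NonrigidSection (r : ℕ) (M E : Subgroup G) : Prop :=
  ∃ (Y : Type) (_ : Group Y) (q : E →* Y), Function.Surjective q ∧ q.ker.map E.subtype = M ∧
    IsQuasisimple Y ∧ ¬ RigidSimple r (Y ⧸ Subgroup.center Y)

/-- The structure of the group `G / M`, where `M` is the kernel of a Heilbronn class function of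
degree at most `r`:
* `M ≤ A ≤ T` are subgroups of `G`, `A` and `T` are normal in `G`, `A / M` is contained in the
  centre of `T / M`, and `T` has index at most
  `(jR r ^ r) ^ jR r * jR r ^ jR r * r ^ r`;
* `s` is a set of at most `r - 1` subgroups `E` of `T`, permuted by the conjugations of `G`;
* for `E` in `s`, `E / M` is quasisimple with nonrigid simple quotient;
* for distinct `E`, `E'` in `s`, `E / M` and `E' / M` commute elementwise;
* an element of `T / M` which commutes with all elements of all `E / M`, `E` in `s`, is in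
  `A / M`. -/
structure IsLayer (r : ℕ) (M A T : Subgroup G) (s : Finset (Subgroup G)) : Prop where
  normalA : A.Normal
  normalT : T.Normal
  leA : M ≤ A
  leT : A ≤ T
  central : ⁅A, T⁆ ≤ M
  index : T.index ≤ (jR r ^ r) ^ jR r * jR r ^ jR r * r ^ r
  card : s.card ≤ r - 1
  sub : ∀ E ∈ s, E ≤ T ∧ NonrigidSection r M E
  comm : ∀ E ∈ s, ∀ E' ∈ s, E ≠ E' → ⁅E, E'⁆ ≤ M
  conj : ∀ E ∈ s, ∀ g : G, E.map (MulAut.conj g).toMonoidHom ∈ s
  centralizer : ∀ t ∈ T, (∀ E ∈ s, ∀ x ∈ E, ⁅t, x⁆ ∈ M) → t ∈ A

end

/-- There are `A`, `T` and `s` with `IsLayer r M A T s` such that `θ` is not constant on any of the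
subgroups in `s`. -/
def HasLayer {G : Type} [Group G] (θ : G → ℂ) (r : ℕ) (M : Subgroup G) : Prop :=
  ∃ (A T : Subgroup G) (s : Finset (Subgroup G)), IsLayer r M A T s ∧
    ∀ E ∈ s, ∃ x ∈ E, θ x ≠ θ 1

/-- For the Galois extension `L/K` and the subgroup `M = Gal(L/F₀)` of `Gal(L/K)` there are `A`,
`T` and `s` with `IsLayer r M A T s`, such that for every `E` in `s` the order at `s₀` of the zeta
function of the fixed field of `E` is smaller than that of the zeta function of `F₀`. -/
def ZetaLayer (K L : Type) [Field K] [NumberField K] [Field L] [NumberField L] [Algebra K L]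
    [IsGalois K L] (s₀ : ℂ) (r : ℕ) (M : Subgroup Gal(L/K)) : Prop :=
  ∃ (A T : Subgroup Gal(L/K)) (s : Finset (Subgroup Gal(L/K))), IsLayer r M A T s ∧
    ∀ E ∈ s, ∀ Z Z' : ℂ → ℂ, ZetaCont K L E Z → ZetaCont K L M Z' →
      meromorphicOrderAt Z s₀ < meromorphicOrderAt Z' s₀

end Pool.Agent.H21.Un
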