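import Pool.Agent.H72.Comp.Main

/-!
Structure theorem for faithful Heilbronn class functions on arbitrary finite groups.
-/

open Finset

open scoped commutatorElement

namespace Pool.Agent.H21.Un

open Pool.Agent.H7.HB Pool.Agent.H72.Cover Pool.Agent.H72.Jordan Pool.Agent.H42.Hb
open Pool.Agent.H98.GL Pool.Agent.H72.Sol Pool.Agent.H72.Comp

variable {G : Type} [Group G] {θ : G → ℂ}

/-- **Structure theorem**, faithful case. -/
theorem structure_faithful [Finite G] (h : Heil θ) {r : ℕ} (hr : θ 1 = r) (hf : Faithful θ) :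
    ∃ (A T : Subgroup G) (s : Finset (Subgroup G)), A.Normal ∧ T.Normal ∧ A ≤ T ∧
      (∀ a ∈ A, ∀ t ∈ T, a * t = t * a) ∧ T.index ≤ bJ r ∧ s.card ≤ r - 1 ∧
      (∀ E ∈ s, E ≤ T ∧ ⁅E, E⁆ = E ∧ (∃ x ∈ E, θ x ≠ θ 1) ∧
        ∃ (S : Type) (_ : Group S) (_ : Finite S) (f : E →* S), IsSimpleGroup S ∧
          (∃ a b : S, a * b ≠ b * a) ∧ Function.Surjective f ∧ (∀ x : E, f x = 1 ↔ (x : G) ∈ A) ∧
          IsCompFactor S G) ∧
      (∀ E ∈ s, ∀ E' ∈ s, E ≠ E' → ∀ x ∈ E, ∀ y ∈ E', x * y = y * x) ∧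
      (∀ E ∈ s, ∀ g : G, cj E g ∈ s) ∧
      (∀ t ∈ T, (∀ E ∈ s, ∀ x ∈ E, t * x = x * t) → t ∈ A) := by
  classical
  obtain ⟨A, T, hAn, hTn, hAT, hc, hi, hs⟩ := jordan h hr hf
  let π : G →* G ⧸ A := QuotientGroup.mk' A
  have hπ : Function.Surjective π := QuotientGroup.mk'_surjective A
  have hker : ∀ x, π x = 1 ↔ x ∈ A := fun x => QuotientGroup.eq_one_iff x
  let U : Subgroup (G ⧸ A) := T.map π
  have hUn : U.Normal := Subgroup.Normal.map hTn _ hπ
  have hcomapT : ∀ M : Subgroup (G ⧸ A), M ≤ U → M.comap π ≤ T := by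
    intro M hM x hx
    obtain ⟨t, ht, htx⟩ := hM hx
    have h1 : t⁻¹ * x ∈ A := by
      rw [← hker, map_mul, map_inv, htx, inv_mul_cancel]
    have h2 := T.mul_mem ht (hAT h1)
    rwa [mul_inv_cancel_left] at h2
  have hU : ∀ M : Subgroup (G ⧸ A), M.Normal → M ≤ U → Group.IsSolvable M → M = ⊥ := by
    intro M hMn hMU hMs
    have hNn : (M.comap π).Normal := inferInstance
    have hA1 : Group.IsSolvable A := by
      have h2 : commutator A = ⊥ := by
        rw [commutator_def, Subgroup.commutator_eq_bot_iff_le_centralizer]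
        intro a _
        rw [Subgroup.mem_centralizer_iff]
        intro b _
        exact Subtype.ext (hc b b.2 a (hAT a.2))
      rw [Group.isSolvable_def]
      exact ⟨1, by rw [derivedSeries_one, h2]⟩
    have hNs : Group.IsSolvable (M.comap π) := by
      let g : M.comap π →* M := π.subgroupComap M
      let f : A →* M.comap π := Subgroup.inclusion (fun a ha => by
        rw [Subgroup.mem_comap, (hker a).2 ha]
        exact M.one_mem)
      refine Group.isSolvable_of_ker_le_range f g ?_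
      intro x hx
      have h1 : π (x : G) = 1 := congrArg Subtype.val (MonoidHom.mem_ker.1 hx)
      exact ⟨⟨x, (hker _).1 h1⟩, rfl⟩
    have h1 := hs _ hNn (hcomapT M hMU) hNs
    rw [eq_bot_iff]
    intro m hm
    obtain ⟨x, rfl⟩ := hπ m
    rw [Subgroup.mem_bot, hker]
    exact h1 hm
  let s : Finset (Subgroup (G ⧸ A)) := (Set.toFinite {S | IsComponent U S}).toFinset
  have hsmem : ∀ S, S ∈ s ↔ IsComponent U S := fun S => by simp [s]
  have hSU : ∀ S, IsComponent U S → S ≤ U := by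
    rintro S ⟨N, -, hNU, hSN, -⟩
    exact hSN.trans hNU
  let E : Subgroup (G ⧸ A) → Subgroup G := fun S => ⁅S.comap π, S.comap π⁆
  have hE1 : ∀ S, E S ≤ S.comap π := fun S => comm_self_le _
  have hET : ∀ S ∈ s, S.comap π ≤ T := fun S hS => hcomapT S (hSU S ((hsmem S).1 hS))
  have hmap : ∀ S ∈ s, (E S).map π = S := by
    intro S hS
    change (⁅S.comap π, S.comap π⁆ : Subgroup G).map π = S
    rw [Subgroup.map_commutator, Subgroup.map_comap_eq_self_of_surjective hπ,
      comp_perfect hU ((hsmem S).1 hS)]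
  have hperf : ∀ S ∈ s, ⁅E S, E S⁆ = E S := by
    intro S hS
    refine le_antisymm (comm_self_le _) ?_
    change (⁅S.comap π, S.comap π⁆ : Subgroup G) ≤ _
    rw [Subgroup.commutator_le]
    intro x hx y hy
    have hdec : ∀ x ∈ S.comap π, ∃ e ∈ E S, ∃ a ∈ A, x = e * a := by
      intro x hx
      have h1 : π x ∈ (E S).map π := by rw [hmap S hS]; exact hx
      obtain ⟨e, he, hex⟩ := h1
      refine ⟨e, he, e⁻¹ * x, ?_, by group⟩
      rw [← hker, map_mul, map_inv, hex, inv_mul_cancel]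
    obtain ⟨e, he, a, ha, rfl⟩ := hdec x hx
    obtain ⟨e', he', a', ha', rfl⟩ := hdec y hy
    have hT1 : e ∈ T := hET S hS (hE1 S he)
    have hT2 : e' ∈ T := hET S hS (hE1 S he')
    have c1 : Commute a e' := hc a ha e' hT2
    have c2 : Commute a' e := hc a' ha' e hT1
    have c3 : Commute a a' := hc a ha a' (hAT ha')
    have h1 : ⁅e * a, e' * a'⁆ = ⁅e, e'⁆ := by
      rw [commutatorElement_def, commutatorElement_def]
      calc e * a * (e' * a') * (e * a)⁻¹ * (e' * a')⁻¹
          = e * (a * e') * a' * a⁻¹ * e⁻¹ * a'⁻¹ * e'⁻¹ := by group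
        _ = e * (e' * a) * a' * a⁻¹ * e⁻¹ * a'⁻¹ * e'⁻¹ := by rw [c1.eq]
        _ = e * e' * (a * a') * a⁻¹ * e⁻¹ * a'⁻¹ * e'⁻¹ := by group
        _ = e * e' * (a' * a) * a⁻¹ * e⁻¹ * a'⁻¹ * e'⁻¹ := by rw [c3.eq]
        _ = e * e' * (a' * e⁻¹) * a'⁻¹ * e'⁻¹ := by group
        _ = e * e' * (e⁻¹ * a') * a'⁻¹ * e'⁻¹ := by rw [c2.inv_right.eq]
        _ = e * e' * e⁻¹ * e'⁻¹ := by group
    rw [h1]
    exact Subgroup.commutator_mem_commutator he he'
  have hcomm : ∀ S ∈ s, ∀ S' ∈ s, S ≠ S' → ∀ x ∈ E S, ∀ y ∈ E S', x * y = y * x := by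
    intro S hS S' hS' hne x hx y hy
    have h1 : ⁅S.comap π, S'.comap π⁆ ≤ A := by
      rw [Subgroup.commutator_le]
      intro a ha b hb
      rw [← hker, map_commutatorElement, commutatorElement_eq_one_iff_mul_comm]
      exact comp_commute ((hsmem S).1 hS) ((hsmem S').1 hS') hne _ ha _ hb
    have h2 : ⁅A, S.comap π⁆ = ⊥ := by
      rw [Subgroup.commutator_eq_bot_iff_le_centralizer]
      intro a ha
      rw [Subgroup.mem_centralizer_iff]
      intro b hb
      exact (hc a ha b (hET S hS hb)).symm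
    have h3 : ⁅⁅S.comap π, S'.comap π⁆, S.comap π⁆ = ⊥ :=
      le_bot_iff.1 ((Subgroup.commutator_mono h1 le_rfl).trans h2.le)
    have h4 : ⁅⁅S'.comap π, S.comap π⁆, S.comap π⁆ = ⊥ := by
      rw [Subgroup.commutator_comm (S'.comap π)]
      exact h3
    have h5 := Subgroup.commutator_commutator_eq_bot_of_rotate h3 h4
    rw [Subgroup.commutator_eq_bot_iff_le_centralizer] at h5
    have h6 := h5 hx
    exact (Subgroup.mem_centralizer_iff.1 h6 y (hE1 S' hy)).symm
  have hEcj : ∀ S (g : G), cj (E S) g = E (cj S (π g)) := by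
    intro S g
    have h1 : cj (S.comap π) g = (cj S (π g)).comap π := by
      ext w
      rw [mem_cj, Subgroup.mem_comap, Subgroup.mem_comap, mem_cj, map_mul, map_mul, map_inv]
    change cj ⁅S.comap π, S.comap π⁆ g = ⁅(cj S (π g)).comap π, (cj S (π g)).comap π⁆
    rw [← h1]
    exact Subgroup.map_commutator _ _ _
  have hnc : ∀ S ∈ s, ∃ x ∈ E S, θ x ≠ θ 1 := by
    by_contra hcon
    push Not at hcon
    obtain ⟨S₀, hS₀, hS₀c⟩ := hcon
    let O : Finset (Subgroup (G ⧸ A)) := s.filter fun S => ∀ x ∈ E S, θ x = θ 1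
    have hO : ∀ S ∈ O, S ∈ s ∧ ∀ x ∈ E S, θ x = θ 1 := fun S hS => Finset.mem_filter.1 hS
    have hconst : ∀ x ∈ O.sup E, θ x = θ 1 :=
      const_sup h O E (fun S hS S' hS' => hcomm S (hO S hS).1 S' (hO S' hS').1)
        (fun S hS => (hO S hS).2)
    have hnor : (O.sup E).Normal := by
      refine ⟨fun w hw g => ?_⟩
      have h1 : O.sup E ≤ cj (O.sup E) g⁻¹ := by
        apply Finset.sup_le
        intro S hS x hx
        rw [mem_cj, inv_inv]
        have h2 : cj S (π g) ∈ O := by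
          refine Finset.mem_filter.2 ⟨(hsmem _).2 (comp_cj ((hsmem S).1 (hO S hS).1) _), ?_⟩
          intro z hz
          rw [← hEcj, mem_cj] at hz
          have h3 := (hO S hS).2 _ hz
          rw [← h3]
          have h4 := h.conj g⁻¹ z
          rw [inv_inv] at h4
          exact h4.symm
        have h3 : E (cj S (π g)) ≤ O.sup E := Finset.le_sup h2
        apply h3
        rw [← hEcj, mem_cj]
        have : g⁻¹ * (g * x * g⁻¹) * g = x := by group
        rwa [this]
      have h2 := h1 hw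
      rwa [mem_cj, inv_inv] at h2
    have h1 := hf _ hnor hconst
    have h2 : E S₀ = ⊥ := by
      rw [eq_bot_iff, ← h1]
      exact Finset.le_sup (Finset.mem_filter.2 ⟨hS₀, hS₀c⟩)
    have h3 := hmap S₀ hS₀
    rw [h2, Subgroup.map_bot] at h3
    obtain ⟨N, -, -, -, hb, -⟩ := (hsmem S₀).1 hS₀
    exact hb h3.symm
  have hcount := count h hr s E hcomm hperf hnc
  refine ⟨A, T, s.image E, hAn, hTn, hAT, hc, hi, Finset.card_image_le.trans hcount, ?_, ?_, ?_, ?_⟩
  · intro F hF
    obtain ⟨S, hS, rfl⟩ := Finset.mem_image.1 hF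
    refine ⟨(hE1 S).trans (hET S hS), hperf S hS, hnc S hS, S, inferInstance, inferInstance, ?_⟩
    obtain ⟨h1, h2, h3⟩ := comp_simple hU ((hsmem S).1 hS)
    let f : E S →* S := (π.comp (E S).subtype).codRestrict S (fun x => hE1 S x.2)
    refine ⟨f, h1, h2, ?_, ?_, ?_⟩
    · intro t
      have h6 : (t : G ⧸ A) ∈ (E S).map π := by rw [hmap S hS]; exact t.2
      obtain ⟨e, he, het⟩ := h6
      exact ⟨⟨e, he⟩, Subtype.ext het⟩
    · intro x
      rw [← hker]
      constructor
      · intro hx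
        exact congrArg Subtype.val hx
      · intro hx
        exact Subtype.ext hx
    · have h4 : IsCompFactor S (G ⧸ A) := ⟨h1, S, h3, MonoidHom.id S, Function.surjective_id⟩
      exact h4.of_surjective π hπ
  · intro F hF F' hF' hne
    obtain ⟨S, hS, rfl⟩ := Finset.mem_image.1 hF
    obtain ⟨S', hS', rfl⟩ := Finset.mem_image.1 hF'
    exact hcomm S hS S' hS' (fun h' => hne (by rw [h']))
  · intro F hF g
    obtain ⟨S, hS, rfl⟩ := Finset.mem_image.1 hF
    rw [hEcj]
    exact Finset.mem_image_of_mem _ ((hsmem _).2 (comp_cj ((hsmem S).1 hS) _))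
  · intro t ht htc
    -- the centraliser in `T` of all `E S`
    let W : Subgroup (G ⧸ A) := s.sup id
    have hW : W.Normal := by
      refine ⟨fun w hw g => ?_⟩
      have h1 : W ≤ cj W g⁻¹ := by
        apply Finset.sup_le
        intro S hS x hx
        rw [mem_cj, inv_inv]
        have h2 : cj S g ≤ W := by
          have h3 : cj S g ∈ s := (hsmem _).2 (comp_cj ((hsmem S).1 hS) g)
          exact Finset.le_sup (f := id) h3
        apply h2
        rw [mem_cj]
        have : g⁻¹ * (g * x * g⁻¹) * g = x := by group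
        rwa [this]
      have h2 := h1 hw
      rwa [mem_cj, inv_inv] at h2
    have hcap : Subgroup.centralizer (W : Set (G ⧸ A)) ⊓ U = ⊥ := by
      by_contra hcon
      obtain ⟨N, hN, hNle⟩ := exists_minNormal _ (inferInstance :
        (Subgroup.centralizer (W : Set (G ⧸ A)) ⊓ U).Normal) hcon
      obtain ⟨S, hS, hSN⟩ := exists_comp hN (hNle.trans inf_le_right)
      have hSW : S ≤ W := Finset.le_sup (f := id) ((hsmem S).2 hS)
      obtain ⟨-, ⟨a, b, hab⟩, -⟩ := comp_simple hU hS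
      apply hab
      apply Subtype.ext
      have h1 : (b : G ⧸ A) ∈ Subgroup.centralizer (W : Set (G ⧸ A)) := (hNle (hSN b.2)).1
      exact Subgroup.mem_centralizer_iff.1 h1 a (hSW a.2)
    rw [← hker, ← Subgroup.mem_bot, ← hcap]
    refine ⟨?_, ⟨t, ht, rfl⟩⟩
    change π t ∈ Subgroup.centralizer (W : Set (G ⧸ A))
    have h1 : W ≤ Subgroup.centralizer {π t} := by
      apply Finset.sup_le
      intro S hS x hx
      rw [Subgroup.mem_centralizer_iff]
      intro z hz
      rw [Set.mem_singleton_iff.1 hz]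
      have h2 : x ∈ (E S).map π := by rw [hmap S hS]; exact hx
      obtain ⟨e, he, rfl⟩ := h2
      rw [← map_mul, ← map_mul, htc (E S) (Finset.mem_image_of_mem _ hS) e he]
    rw [Subgroup.mem_centralizer_iff]
    intro w hw
    exact (Subgroup.mem_centralizer_iff.1 (h1 hw) _ rfl).symm

end Pool.Agent.H21.Un
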