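import Pool.Agent.H21.Un.Defs
import Pool.Agent.H21.Un.Faithful
import Pool.Agent.H42.Hb.PoleGroup

/-!
Structure theorem for Heilbronn class functions on arbitrary finite groups.
-/

open Finset Module NumberField

open scoped ComplexOrder Nat commutatorElement

namespace Pool.Agent.H21.Un

set_option linter.unusedSectionVars false

open Pool.Agent.H7.HB Pool.Agent.H72.Cover Pool.Agent.H72.Jordan Pool.Agent.H42.Hb
open Pool.Agent.H98.GL Pool.Agent.H72.Sol Pool.Agent.H72.Comp Pool.Agent.H7.Artin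
open Pool.Agent.H24.HL

theorem RigidSimple.cover {r : ℕ} {S : Type} [Group S] (h : RigidSimple r S) :
    CoverRigid r S := by
  rcases h with ⟨n, h1, h2, h3, ⟨e⟩⟩ | ⟨n, F, _, _, h5, hr, ⟨e⟩⟩ | h1 | h1
  · exact alt_cover h1 h2 h3 e
  · have : Fintype F := Fintype.ofFinite F
    exact Pool.Agent.H21.SLc.psl_cover (ringChar F) h5 hr e
  · exact h1.cover
  · exact h1.cover

theorem CoverRigid.mono {d r : ℕ} {S : Type} [Group S] (h : CoverRigid r S) (hd : d ≤ r) :
    CoverRigid d S :=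
  fun X _ _ f hf hk hX θ hθ e he => h X f hf hk hX θ hθ e (he.trans hd)

theorem CoverRigid.congr {r : ℕ} {S S' : Type} [Group S] [Group S'] (h : CoverRigid r S)
    (e : S ≃* S') : CoverRigid r S' := by
  intro X _ _ f hf hk hX
  refine h X (e.symm.toMonoidHom.comp f) (e.symm.surjective.comp hf) ?_ hX
  intro x hx
  apply hk
  rw [MonoidHom.mem_ker] at hx ⊢
  apply e.symm.injective
  rw [map_one]
  exact hx

theorem center_eq_ker {Y S : Type} [Group Y] [Group S] (hS : IsSimpleGroup S)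
    (hn : ∃ a b : S, a * b ≠ b * a) (f : Y →* S) (hf : Function.Surjective f)
    (hk : f.ker ≤ Subgroup.center Y) : f.ker = Subgroup.center Y := by
  refine le_antisymm hk ?_
  have h1 : ((Subgroup.center Y).map f).Normal := Subgroup.Normal.map inferInstance f hf
  rcases h1.eq_bot_or_eq_top with h2 | h2
  · rwa [Subgroup.map_eq_bot_iff] at h2
  · exfalso
    obtain ⟨a, b, hab⟩ := hn
    apply hab
    have ha : a ∈ (Subgroup.center Y).map f := by rw [h2]; exact Subgroup.mem_top _
    obtain ⟨x, hx, rfl⟩ := ha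
    obtain ⟨y, rfl⟩ := hf b
    rw [← map_mul, ← map_mul, Subgroup.mem_center_iff.1 hx y]

theorem quot_center {Y S : Type} [Group Y] [Group S] (hS : IsSimpleGroup S)
    (hn : ∃ a b : S, a * b ≠ b * a) (f : Y →* S) (hf : Function.Surjective f)
    (hk : f.ker ≤ Subgroup.center Y) : Nonempty (Y ⧸ Subgroup.center Y ≃* S) := by
  have h1 := center_eq_ker hS hn f hf hk
  exact ⟨(QuotientGroup.quotientMulEquivOfEq h1.symm).trans
    (QuotientGroup.quotientKerEquivOfSurjective f hf)⟩

theorem not_rigid {G : Type} [Group G] [Finite G] {θ : G → ℂ} (h : Heil θ) {r d : ℕ}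
    (hr : θ 1 = d) (hd : d ≤ r) {E : Subgroup G} (hE : ⁅E, E⁆ = E) (hnc : ∃ x ∈ E, θ x ≠ θ 1)
    {S : Type} [Group S] (f : E →* S) (hf : Function.Surjective f)
    (hk : f.ker ≤ Subgroup.center E) : ¬ CoverRigid r S := by
  intro hc
  obtain ⟨x, hx, hne⟩ := hnc
  exact hne (hc E f hf hk (perfect_of_comm hE) (fun x => θ x) (h.comp E.subtype) d hd hr ⟨x, hx⟩)

/-- **Structure theorem**, group form. -/
theorem hasLayer {G : Type} [Group G] [Finite G] {θ : G → ℂ} (h : Heil θ) {M : Subgroup G}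
    (hM : IsKernelOf θ M) {r : ℕ} (hdeg : DegLe θ r) : HasLayer θ r M := by
  classical
  obtain ⟨hMn, hM1, hM2⟩ := hM
  obtain ⟨d, hd, hdr⟩ := hdeg
  have hcst : Cst θ M := by
    intro x y hxy
    have h1 : y⁻¹ * x ∈ M := by
      have := hMn.conj_mem _ hxy y⁻¹
      have h2 : y⁻¹ * (x * y⁻¹) * y⁻¹⁻¹ = y⁻¹ * x := by group
      rwa [h2] at this
    have h2 := hM1 y _ h1
    rwa [mul_inv_cancel_left] at h2
  obtain ⟨θ', h2, h3⟩ := exists_quot h M hcst
  let π : G →* G ⧸ M := QuotientGroup.mk' M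
  have hπ : Function.Surjective π := QuotientGroup.mk'_surjective M
  have hker : ∀ x, π x = 1 ↔ x ∈ M := fun x => QuotientGroup.eq_one_iff x
  have h3' : ∀ x, θ' (π x) = θ x := h3
  have hθ1 : θ' 1 = θ 1 := by rw [← h3' 1, map_one]
  have hf : Faithful θ' := by
    intro N hN hNc
    have h4 : N.comap π ≤ M := by
      rw [← hM2 _ inferInstance]
      intro x hx
      have h5 : θ' (π x) = θ' 1 := hNc _ hx
      rw [← h3', h5, hθ1]
    rw [eq_bot_iff]
    intro q hq
    obtain ⟨x, rfl⟩ := hπ q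
    rw [Subgroup.mem_bot, hker]
    exact h4 hq
  have hd' : θ' 1 = d := by rw [hθ1, hd]
  obtain ⟨A, T, s, hAn, hTn, hAT, hc, hi, hcard, hs, hcomm, hcj, hz⟩ :=
    structure_faithful h2 hd' hf
  have hcomap : ∀ {H H' : Subgroup (G ⧸ M)}, H ≤ H' → H.comap π ≤ H'.comap π := fun h =>
    Subgroup.comap_mono h
  have hMle : ∀ H : Subgroup (G ⧸ M), M ≤ H.comap π := by
    intro H x hx
    rw [Subgroup.mem_comap, (hker x).2 hx]
    exact H.one_mem
  have hcm : ∀ H : Subgroup (G ⧸ M), (H.comap π).map π = H := fun H =>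
    Subgroup.map_comap_eq_self_of_surjective hπ H
  refine ⟨A.comap π, T.comap π, s.image (fun E => E.comap π), ⟨inferInstance, inferInstance,
    hMle A, hcomap hAT, ?_, ?_, ?_, ?_, ?_, ?_, ?_⟩, ?_⟩
  · rw [Subgroup.commutator_le]
    intro a ha t ht
    rw [← hker, map_commutatorElement, commutatorElement_eq_one_iff_mul_comm]
    exact hc _ ha _ ht
  · rw [Subgroup.index_comap_of_surjective _ hπ]
    exact hi.trans (bJ_mono hdr)
  · exact Finset.card_image_le.trans (hcard.trans (by omega))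
  · intro F hF
    obtain ⟨E, hE, rfl⟩ := Finset.mem_image.1 hF
    obtain ⟨hET, hEp, hEn, S, _, _, f, hS, hSn, hfs, hfk, -⟩ := hs E hE
    have hkc : f.ker ≤ Subgroup.center E := by
      intro x hx
      have h4 := (hfk x).1 (MonoidHom.mem_ker.1 hx)
      rw [Subgroup.mem_center_iff]
      intro y
      exact Subtype.ext (hc _ h4 _ (hET y.2)).symm
    refine ⟨hcomap hET, E, inferInstance, π.subgroupComap E, ?_, ?_, ⟨perfect_of_comm hEp, ?_⟩, ?_⟩
    · rintro ⟨t, ht⟩
      obtain ⟨g, rfl⟩ := hπ t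
      exact ⟨⟨g, ht⟩, rfl⟩
    · ext x
      constructor
      · rintro ⟨y, hy, rfl⟩
        have h4 : π (y : G) = 1 := congrArg Subtype.val (MonoidHom.mem_ker.1 hy)
        exact (hker _).1 h4
      · intro hx
        refine ⟨⟨x, hMle E hx⟩, ?_, rfl⟩
        exact MonoidHom.mem_ker.2 (Subtype.ext ((hker x).2 hx))
    · obtain ⟨e⟩ := quot_center hS hSn f hfs hkc
      exact e.isSimpleGroup
    · obtain ⟨e⟩ := quot_center hS hSn f hfs hkc
      intro hcr
      exact not_rigid h2 hd' hdr hEp hEn f hfs hkc (CoverRigid.congr hcr.cover e)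
  · intro F hF F' hF' hne
    obtain ⟨E, hE, rfl⟩ := Finset.mem_image.1 hF
    obtain ⟨E', hE', rfl⟩ := Finset.mem_image.1 hF'
    rw [Subgroup.commutator_le]
    intro a ha b hb
    rw [← hker, map_commutatorElement, commutatorElement_eq_one_iff_mul_comm]
    exact hcomm E hE E' hE' (fun h' => hne (by rw [h'])) _ ha _ hb
  · intro F hF g
    obtain ⟨E, hE, rfl⟩ := Finset.mem_image.1 hF
    have h4 : (E.comap π).map (MulAut.conj g).toMonoidHom = (cj E (π g)).comap π := by
      ext w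
      rw [Subgroup.mem_comap, mem_cj]
      constructor
      · rintro ⟨x, hx, rfl⟩
        change (π g)⁻¹ * π (g * x * g⁻¹) * π g ∈ E
        rw [map_mul, map_mul, map_inv]
        have h5 : (π g)⁻¹ * (π g * π x * (π g)⁻¹) * π g = π x := by group
        rw [h5]
        exact hx
      · intro hw
        refine ⟨g⁻¹ * w * g, ?_, ?_⟩
        · change π (g⁻¹ * w * g) ∈ E
          rw [map_mul, map_mul, map_inv]
          exact hw
        · change g * (g⁻¹ * w * g) * g⁻¹ = w
          group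
    rw [h4]
    exact Finset.mem_image_of_mem _ (hcj E hE _)
  · intro t ht htc
    refine hz _ ht ?_
    intro E hE x hx
    obtain ⟨x, rfl⟩ := hπ x
    have h4 := htc _ (Finset.mem_image_of_mem _ hE) x hx
    rw [← hker, map_commutatorElement, commutatorElement_eq_one_iff_mul_comm] at h4
    exact h4
  · intro F hF
    obtain ⟨E, hE, rfl⟩ := Finset.mem_image.1 hF
    obtain ⟨-, -, ⟨x, hx, hne⟩, -⟩ := hs E hE
    obtain ⟨x, rfl⟩ := hπ x
    refine ⟨x, hx, ?_⟩
    rwa [h3', hθ1] at hne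

end Pool.Agent.H21.Un
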