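import Pool.Agent.H21.Un.Main

/-!
The structure theorem for zeros of Dedekind zeta functions.
-/

open Finset Module NumberField

open scoped ComplexOrder Nat commutatorElement

namespace Pool.Agent.H21.Un

set_option linter.unusedSectionVars false

open Pool.Agent.H7.HB Pool.Agent.H72.Cover Pool.Agent.H72.Jordan Pool.Agent.H42.Hb
open Pool.Agent.H98.GL Pool.Agent.H72.Sol Pool.Agent.H72.Comp Pool.Agent.H7.Artin
open Pool.Agent.H24.HL

theorem avg_le {G : Type} [Group G] [Finite G] {θ : G → ℂ} (h : Heil θ) {d : ℕ} (hd : θ 1 = d)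
    (E : Subgroup G) [Fintype E] {n : ℤ} (hn : (n : ℂ) = (Nat.card E : ℂ)⁻¹ * ∑ x : E, θ x) :
    n ≤ d := by
  have h8 : ‖(n : ℂ)‖ ≤ (d : ℝ) := by
    rw [hn, norm_mul, norm_inv, Complex.norm_natCast]
    have h9 : ‖∑ y : E, θ y‖ ≤ Nat.card E * d := by
      refine (norm_sum_le _ _).trans ?_
      have h20 : ∑ y : E, ‖θ y‖ ≤ ∑ _y : E, (d : ℝ) :=
        Finset.sum_le_sum fun y _ => norm_le h hd (y : G)
      refine h20.trans ?_
      rw [Finset.sum_const, Finset.card_univ, nsmul_eq_mul, Nat.card_eq_fintype_card]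
    have h10 : (0 : ℝ) < Nat.card E := by exact_mod_cast Nat.card_pos
    rw [inv_mul_le_iff₀ h10]
    exact h9
  have h12 : |(n : ℝ)| ≤ (d : ℝ) := by
    have h13 : ‖(n : ℂ)‖ = |(n : ℝ)| := by
      rw [Complex.norm_intCast]
    rw [← h13]
    exact h8
  have h14 := (le_abs_self (n : ℝ)).trans h12
  exact_mod_cast h14

section

variable {K L : Type} [Field K] [NumberField K] [Field L] [NumberField L] [Algebra K L]
  [IsGalois K L]

theorem zetaLayer_of {s₀ : ℂ} {θ : Gal(L/K) → ℂ} (hθ : Heil θ)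
    (hord : ∀ (V : Type) [AddCommGroup V] [Module ℂ V] [FiniteDimensional ℂ V]
        (ρ : Representation ℂ Gal(L/K) V) (Λ : ℂ → ℂ), IsContinuation K L ρ Λ → ∃ n : ℤ,
        meromorphicOrderAt Λ s₀ = n ∧ (n : ℂ) = ip θ ρ.character)
    {M : Subgroup Gal(L/K)} (hM : IsKernelOf θ M) {r : ℕ} (hdeg : DegLe θ r) :
    ZetaLayer K L s₀ r M := by
  classical
  obtain ⟨A, T, s, hs, hnc⟩ := hasLayer hθ hM hdeg
  obtain ⟨d, hd, hdr⟩ := hdeg
  refine ⟨A, T, s, hs, ?_⟩
  intro E hE Z Z' hZ hZ'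
  obtain ⟨n, hn, hn'⟩ := hord _ (permRep Gal(L/K) (Gal(L/K) ⧸ E)) Z hZ
  obtain ⟨m, hm, hm'⟩ := hord _ (permRep Gal(L/K) (Gal(L/K) ⧸ M)) Z' hZ'
  let _ : Fintype E := Fintype.ofFinite _
  let _ : Fintype M := Fintype.ofFinite _
  rw [ip_permG hθ.conj] at hn' hm'
  have hmd : m = (d : ℤ) := by
    have h1 : (Nat.card M : ℂ)⁻¹ * ∑ n : M, θ n = θ 1 := by
      rw [avg_eq_iff hθ]
      exact (hM.2.2 M hM.1).2 le_rfl
    rw [h1, hd] at hm'
    exact_mod_cast hm'
  have h1 : n ≤ (d : ℤ) := avg_le hθ hd E hn'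
  have h2 : n ≠ (d : ℤ) := by
    intro h3
    rw [h3] at hn'
    have h4 : (Nat.card E : ℂ)⁻¹ * ∑ n : E, θ n = θ 1 := by
      rw [← hn', hd]
      simp
    rw [avg_eq_iff hθ] at h4
    obtain ⟨x, hx, hne⟩ := hnc E hE
    exact hne (h4 x hx)
  rw [hn, hm, hmd]
  have h18 : n < (d : ℤ) := lt_of_le_of_ne h1 h2
  exact_mod_cast h18

/-- **Structure theorem**, L-function form. -/
theorem zeta_structure (s₀ : ℂ) (hcont : AllContinue K L) (hmono : MonomialAt K L s₀) :
    ∃ F₀ : IntermediateField K L, IsZeroField K L s₀ F₀ ∧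
      (∀ r : ℕ, ZetaOrderLe K L s₀ r → ZetaLayer K L s₀ r F₀.fixingSubgroup) ∧
      (∀ r : ℕ, ZetaOrderLe K L s₀ r → LargeFactors r Gal(L/K) →
        SolvableQuotient F₀.fixingSubgroup ∧ NonsolvableTrivial K L s₀) ∧
      ∀ r B : ℕ, ZetaOrderLe K L s₀ r → Factors r B Gal(L/K) →
        AbelianByBounded F₀.fixingSubgroup (jB r B) := by
  classical
  obtain ⟨θ, hθ, hreg, hord⟩ := exists_heil K L hcont s₀ hmono
  obtain ⟨M, hker, hS, hJ⟩ := structure_group hθ
  have hker' := hker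
  obtain ⟨hM, hM1, hM2⟩ := hker
  have hfix : (IntermediateField.fixedField M).fixingSubgroup = M :=
    IntermediateField.fixingSubgroup_fixedField M
  refine ⟨IntermediateField.fixedField M, ⟨inferInstance, ?_, ?_⟩, ?_, ?_, ?_⟩
  · intro F hF Z Z' hZ hZ'
    have hN : F.fixingSubgroup.Normal := inferInstance
    obtain ⟨n, hn, hn'⟩ := hreg Z hZ
    let _ : Fintype F.fixingSubgroup := Fintype.ofFinite _
    obtain ⟨m, hm, hm'⟩ := hord _ (permRep Gal(L/K) (Gal(L/K) ⧸ F.fixingSubgroup)) Z' hZ'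
    rw [ip_permG hθ.conj] at hm'
    have h1 : meromorphicOrderAt Z' s₀ = meromorphicOrderAt Z s₀ ↔ F.fixingSubgroup ≤ M := by
      rw [← hM2 _ hN, ← avg_eq_iff hθ, ← hm', ← hn', hn, hm]
      constructor
      · intro h
        have h1 : m = n := WithTop.coe_injective h
        rw [h1]
      · intro h
        have h1 : m = n := by exact_mod_cast h
        rw [h1]
    rw [h1]
    constructor
    · intro h
      rw [← IsGalois.fixedField_fixingSubgroup F]
      exact IntermediateField.fixedField_le h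
    · intro h
      have := IntermediateField.fixingSubgroup_le h
      rwa [hfix] at this
  · intro V _ _ _ ρ Λ hirr hρ hΛ
    rw [hfix] at hρ
    obtain ⟨m, hm, hm'⟩ := hord V ρ Λ hΛ
    rw [ip_eq_zero M hM1 ρ hρ] at hm'
    have h1 : m = 0 := by exact_mod_cast hm'
    rw [hm, h1]
    rfl
  · rintro r ⟨Z, hZ, hle⟩
    rw [hfix]
    exact zetaLayer_of hθ hord hker' (deg_le hθ hreg Z hZ hle)
  · rintro r ⟨Z, hZ, hle⟩ hG
    rw [hfix]
    refine ⟨hS r (deg_le hθ hreg Z hZ hle) hG, ?_⟩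
    intro V _ _ _ ρ Λ hirr hns hΛ
    exact factors_order K L hG.good s₀ hcont hmono Z hZ hle ρ Λ hirr hns hΛ
  · rintro r B ⟨Z, hZ, hle⟩ hG
    rw [hfix]
    exact hJ r B (deg_le hθ hreg Z hZ hle) hG

/-- The structure theorem for Heilbronn class functions on finite groups. -/
theorem group_structure {G : Type} [Group G] [Fintype G] {θ : G → ℂ} (hθ : Heil θ) :
    ∃ M : Subgroup G, IsKernelOf θ M ∧ (∀ r : ℕ, DegLe θ r → HasLayer θ r M) ∧
      (∀ r : ℕ, DegLe θ r → LargeFactors r G → SolvableQuotient M) ∧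
      ∀ r B : ℕ, DegLe θ r → Factors r B G → AbelianByBounded M (jB r B) := by
  obtain ⟨M, hM, h1, h2⟩ := structure_group hθ
  exact ⟨M, hM, fun r hr => hasLayer hθ hM hr, h1, h2⟩

end

end Pool.Agent.H21.Un
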