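import Pool.Agent.H31.CF.Zeta
import Pool.Agent.H42.Hb.PDefs

/-!
# Definitions: orders of Dedekind zeta functions of the subfields of `L/K`
-/

open Module NumberField

open Pool.Agent.H7.Artin Pool.Agent.H24.HL Pool.Agent.H42.Hb Pool.Agent.H31.CF

namespace Pool.Agent.H21.Un

/-- The order of the Dedekind zeta function of `L` at `s₀` is at most `r`. -/
def DedekindOrderLe (L : Type) [Field L] [NumberField L] (s₀ : ℂ) (r : ℕ) : Prop :=
  ∃ Z : ℂ → ℂ, IsZetaContinuation L Z ∧ meromorphicOrderAt Z s₀ ≤ ((r : ℤ) : WithTop ℤ)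

variable (K L : Type) [Field K] [NumberField K] [Field L] [NumberField L] [Algebra K L]
  [IsGalois K L]

/-- `F₀/K` is a Galois extension inside `L/K` such that
* for `F/K` Galois inside `L/K`, the Dedekind zeta functions of `F` and of `L` have the same order
  at `s₀` if and only if `F₀ ≤ F`;
* every Artin L-function of an irreducible representation of `Gal(L/K)` which is nontrivial on
  `Gal(L/F₀)` has order `0` at `s₀`. -/
def IsDedekindZeroField (s₀ : ℂ) (F₀ : IntermediateField K L) : Prop :=
  IsGalois K F₀ ∧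
  (∀ F : IntermediateField K L, IsGalois K F → ∀ ζL ζF : ℂ → ℂ,
    IsZetaContinuation L ζL → IsZetaContinuation F ζF →
    (meromorphicOrderAt ζF s₀ = meromorphicOrderAt ζL s₀ ↔ F₀ ≤ F)) ∧
  ∀ (V : Type) [AddCommGroup V] [Module ℂ V] [FiniteDimensional ℂ V]
    (ρ : Representation ℂ Gal(L/K) V) (Λ : ℂ → ℂ), ρ.IsIrreducible →
    (∃ g ∈ F₀.fixingSubgroup, ρ g ≠ 1) → IsContinuation K L ρ Λ →
    meromorphicOrderAt Λ s₀ = 0

/-- For the subgroup `M = Gal(L/F₀)` of `Gal(L/K)` there are `A`, `T` and `s` with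
`IsLayer r M A T s`, such that for every `E` in `s` the order at `s₀` of the Dedekind zeta function
of the fixed field of `E` is smaller than that of the Dedekind zeta function of `F₀`. -/
def DedekindLayer (s₀ : ℂ) (r : ℕ) (F₀ : IntermediateField K L) : Prop :=
  ∃ (A T : Subgroup Gal(L/K)) (s : Finset (Subgroup Gal(L/K))),
    IsLayer r F₀.fixingSubgroup A T s ∧ ∀ E ∈ s, ∀ Z Z' : ℂ → ℂ,
      IsZetaContinuation (IntermediateField.fixedField E) Z → IsZetaContinuation F₀ Z' →
      meromorphicOrderAt Z s₀ < meromorphicOrderAt Z' s₀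

/-- There are fields `K ≤ E ≤ E' ≤ L` such that `E'/E` is a Galois extension with quasisimple
Galois group `Y` (given by `B = Gal(L/E)` and the restriction `q : Gal(L/E) → Y`) and the Dedekind
zeta function of `E` has a smaller order at `s₀` than that of `E'`. -/
def DedekindJump (s₀ : ℂ) : Prop :=
  ∃ (B : Subgroup Gal(L/K)) (Y : Type) (_ : Group Y) (q : B →* Y), Function.Surjective q ∧
    IsQuasisimple Y ∧ ∀ Z Z' : ℂ → ℂ, IsZetaContinuation (IntermediateField.fixedField B) Z →
      IsZetaContinuation (IntermediateField.fixedField (q.ker.map B.subtype)) Z' →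
      meromorphicOrderAt Z s₀ < meromorphicOrderAt Z' s₀

end Pool.Agent.H21.Un
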