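import Pool.Agent.H42.Unc.Ind
import Pool.Agent.H21.Un.UDefs
import Pool.Agent.H21.Un.Order
import Pool.Agent.H42.Hb.PoleLayer

/-!
# The structure theorems for the zeros and the poles, without hypotheses
-/

open Module NumberField

open Pool.Agent.H7.Artin Pool.Agent.H24.HL Pool.Agent.H42.Hb Pool.Agent.H31.CF Pool.Agent.H42.Unc

namespace Pool.Agent.H21.Un

theorem zeta_structure_uncond (K L : Type) [Field K] [NumberField K] [Field L] [NumberField L]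
    [Algebra K L] [IsGalois K L] (s₀ : ℂ) (hs₀ : s₀ ≠ 1) :
    AllContinue K L ∧ ∃ F₀ : IntermediateField K L, IsDedekindZeroField K L s₀ F₀ ∧
      (∀ r : ℕ, DedekindOrderLe L s₀ r → DedekindLayer K L s₀ r F₀) ∧
      (∀ r : ℕ, DedekindOrderLe L s₀ r → LargeFactors r Gal(L/K) →
        SolvableQuotient F₀.fixingSubgroup ∧ NonsolvableTrivial K L s₀) ∧
      ∀ r B : ℕ, DedekindOrderLe L s₀ r → Factors r B Gal(L/K) →
        AbelianByBounded F₀.fixingSubgroup (jB r B) := by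
  have hcont := (artin_brauer_hecke K L).1
  have hmono := (artin_brauer_hecke K L).2 s₀ hs₀
  have hle : ∀ r : ℕ, DedekindOrderLe L s₀ r → ZetaOrderLe K L s₀ r := by
    rintro r ⟨Z, hZ, h⟩
    exact ⟨Z, (isContinuation_ltr_iff K L Z).2 hZ, h⟩
  refine ⟨hcont, ?_⟩
  obtain ⟨F₀, ⟨h1, h2, h3⟩, h4, h5, h6⟩ := zeta_structure (K := K) (L := L) s₀ hcont hmono
  refine ⟨F₀, ⟨h1, fun F hF ζL ζF hL hζF => ?_, h3⟩, fun r hr => ?_,
    fun r hr => h5 r (hle r hr), fun r B hr => h6 r B (hle r hr)⟩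
  · exact h2 F hF ζL ζF ((isContinuation_ltr_iff K L ζL).2 hL) ((isContinuation_permRep_fixing F ζF).2 hζF)
  · obtain ⟨A, T, s, hs, hord⟩ := h4 r (hle r hr)
    exact ⟨A, T, s, hs, fun E hE Z Z' hZ hZ' =>
      hord E hE Z Z' ((isContinuation_permRep_iff E Z).2 hZ) ((isContinuation_permRep_fixing F₀ Z').2 hZ')⟩

theorem hasPole_uncond (K L : Type) [Field K] [NumberField K] [Field L] [NumberField L]
    [Algebra K L] [IsGalois K L] (s₀ : ℂ) (r : ℕ) (hs₀ : s₀ ≠ 1) (hr : DedekindOrderLe L s₀ r)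
    (hp : HasPole K L s₀) :
    LayerPole K L s₀ r ∧ (SmallPole K L s₀ (bS r) ∨ DedekindJump K L s₀) ∧
      (LargeFactors r Gal(L/K) → SmallPole K L s₀ (bS r)) ∧
      ∀ B : ℕ, Factors r B Gal(L/K) → SmallPole K L s₀ (jB r B) := by
  have hcont := (artin_brauer_hecke K L).1
  have hmono := (artin_brauer_hecke K L).2 s₀ hs₀
  obtain ⟨Z, hZ, h⟩ := hr
  obtain ⟨h1, h2, h3⟩ := hasPole_layer (K := K) (L := L) hcont hmono
    ⟨Z, (isContinuation_ltr_iff K L Z).2 hZ, h⟩ hp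
  refine ⟨h1, h2.imp id ?_, h3⟩
  rintro ⟨B, Y, hY, q, hq, hqs, hord⟩
  exact ⟨B, Y, hY, q, hq, hqs, fun Z Z' hZ hZ' =>
    hord Z Z' ((isContinuation_permRep_iff B Z).2 hZ) ((isContinuation_permRep_iff _ Z').2 hZ')⟩

end Pool.Agent.H21.Un
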